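import Mathlib
import Pool.Agent.H451.BB.Def
import Pool.Agent.H451.BB.Main

/-!
# The conjecture of Beilinson and Bloch for diagonal cubic threefolds and fivefolds

The definitions are in `Pool.Agent.H451.BB.Def`.
-/

set_option autoImplicit false

namespace Pool.Agent.Results.MP_b8021b_nt.CubicThreefolds

open NumberField Pool.Agent.H451.CubT

/-- **The conjecture of Beilinson and Bloch for diagonal cubic threefolds and fivefolds over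
`K = ℚ(√-3)`.** -/
theorem result (K : Type) [Field K] [NumberField K] [IsCyclotomicExtension {3} ℚ K] :
    (∀ m : ℕ, m = 5 ∨ m = 7 → ∀ a : Fin m → 𝓞 K, (∀ i, a i ≠ 0) →
      Mot a ∧ ((∀ S : Finset (Fin m), S.card = (m - 3) / 2 → Good (DS a S)) → BB a)) ∧
    (∀ D : 𝓞 K, Good D → ∀ m : ℕ, m = 5 ∨ m = 7 → ∀ k : Fin m → ℕ, BB fun i => D ^ k i) ∧
    (∀ A B : 𝓞 K, Good A → Good B → BB ![A, A ^ 2, B, B ^ 2, 1]) ∧
    (∃ c : ℝ, 0 < c ∧ ∃ X₀ : ℕ, ∀ X : ℕ, X₀ ≤ X →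
      c * X ≤ ({D : 𝓞 K | Algebra.norm ℤ D ≤ X ∧ Cls D}.ncard : ℝ)) ∧
    ∃ X₀ : ℕ, ∀ X : ℕ, X₀ ≤ X →
      0.639 * ({D : 𝓞 K | Algebra.norm ℤ D ≤ X ∧ Cls D}.ncard : ℝ) ≤
        ({D : 𝓞 K | Algebra.norm ℤ D ≤ X ∧ Cls D ∧ Good D}.ncard : ℝ) :=
  final K

end Pool.Agent.Results.MP_b8021b_nt.CubicThreefolds
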